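import Mathlib
import Pool.Agent.Y685.SY.Stm2

/-!
# SY2-GOODB: a good endomorphism, if the oscillation is small
-/

set_option maxSynthPendingDepth 3

open scoped Manifold ContDiff Topology ENNReal
open MeasureTheory Set Metric Filter

namespace Pool.Agent.Y421.SY

open Pool.Agent.Y685.SY

variable {E : Type} [NormedAddCommGroup E] [InnerProductSpace ℝ E] [FiniteDimensional ℝ E]

/-- the endomorphism of a nondegenerate alternating form -/
theorem exists_endo (b : E →L[ℝ] E →L[ℝ] ℝ) (hb : ∀ u, b u u = 0) (c : ℝ) (hc : 0 < c)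
    (hbc : ∀ u : E, c * ‖u‖ ≤ ‖b u‖) :
    ∃ Q : E →L[ℝ] E, ‖Q‖ ≤ 1 / c ∧ ∀ u, b u (Q u) = ‖u‖ ^ 2 := by
  let B : E →ₗ[ℝ] E := ((InnerProductSpace.toDual ℝ E).symm.toLinearEquiv.toLinearMap).comp
    (b : E →ₗ[ℝ] (E →L[ℝ] ℝ))
  have hB : ∀ u w, inner ℝ (B u) w = b u w := fun u w =>
    InnerProductSpace.toDual_symm_apply
  have hBn : ∀ u, ‖B u‖ = ‖b u‖ := fun u =>
    (InnerProductSpace.toDual ℝ E).symm.norm_map (b u)
  have hinj : Function.Injective B := by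
    rw [← LinearMap.ker_eq_bot, LinearMap.ker_eq_bot']
    intro u hu
    have h1 := hbc u
    rw [← hBn, hu, norm_zero] at h1
    have h2 : ‖u‖ ≤ 0 := by
      by_contra h
      push Not at h
      have := mul_pos hc h
      linarith
    exact norm_le_zero_iff.mp h2
  let e := LinearEquiv.ofInjectiveEndo B hinj
  have he : ∀ w, B (e.symm w) = w := fun w => e.apply_symm_apply w
  let Q : E →L[ℝ] E := LinearMap.toContinuousLinearMap (-e.symm.toLinearMap)
  have hQ : ∀ w, B (Q w) = -w := by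
    intro w
    show B (-(e.symm w)) = -w
    rw [map_neg, he]
  refine ⟨Q, ?_, ?_⟩
  · refine Q.opNorm_le_bound (by positivity) fun w => ?_
    have h1 := hbc (Q w)
    rw [← hBn, hQ, norm_neg] at h1
    rw [one_div, inv_mul_eq_div, le_div_iff₀ hc, mul_comm]
    exact h1
  · intro u
    have hskew : b u (Q u) = - b (Q u) u := by
      have h1 := hb (u + Q u)
      have h2 : b (u + Q u) (u + Q u) = b u u + b u (Q u) + (b (Q u) u + b (Q u) (Q u)) := by
        rw [map_add b]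
        show b u (u + Q u) + b (Q u) (u + Q u) = _
        rw [map_add, map_add]
      rw [h2, hb, hb] at h1
      linarith
    rw [hskew, ← hB, hQ, inner_neg_left, neg_neg, real_inner_self_eq_norm_sq]

variable [MeasurableSpace E] [BorelSpace E]

theorem t_GOODB : S_GOODB E := by
  intro Θ B₀ x r c κ hr hc hκ hΘ halt hlow hosc
  obtain ⟨μ, hμ⟩ : ∃ μ : Measure E, μ = volume.restrict (ball x r) := ⟨_, rfl⟩
  rw [← hμ] at hΘ hlow hosc ⊢
  have huniv : μ univ = volume (ball x r) := by rw [hμ, Measure.restrict_apply_univ]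
  have hpos : μ univ ≠ 0 := by
    rw [huniv]
    exact (measure_ball_pos volume x hr).ne'
  have htop : μ univ ≠ ⊤ := by
    rw [huniv]
    exact measure_ball_lt_top.ne
  have : IsFiniteMeasure μ := ⟨lt_top_iff_ne_top.mpr htop⟩
  have hμ0 : μ ≠ 0 := fun h => hpos (by rw [h]; rfl)
  have hfm : AEMeasurable (fun y => ‖Θ y - B₀‖ₑ) μ :=
    (hΘ.sub aestronglyMeasurable_const).enorm
  obtain ⟨z, hz, hz2⟩ := exists_notMem_null_le_laverage hμ0 hfm hlow
  have hz1 : ∀ u : E, c * ‖u‖ ≤ ‖Θ z u‖ := by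
    simpa using hz
  obtain ⟨Q, hQ, hQu⟩ := exists_endo (Θ z) (halt z) c hc hz1
  refine ⟨Q, hQ, ?_⟩
  have h1 : ‖Θ z - B₀‖ₑ * μ univ ≤ ∫⁻ y, ‖Θ y - B₀‖ₑ ∂μ := by
    rw [laverage_eq] at hz2
    rwa [ENNReal.le_div_iff_mul_le (Or.inl hpos) (Or.inl htop)] at hz2
  have h2 : ∫⁻ y, ‖Θ y - Θ z‖ₑ ∂μ ≤ ENNReal.ofReal (2 * (κ * r ^ Module.finrank ℝ E)) := by
    calc ∫⁻ y, ‖Θ y - Θ z‖ₑ ∂μ ≤ ∫⁻ y, (‖Θ y - B₀‖ₑ + ‖Θ z - B₀‖ₑ) ∂μ := by
          refine lintegral_mono fun y => ?_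
          have e1 : Θ y - Θ z = (Θ y - B₀) - (Θ z - B₀) := by abel
          rw [e1]
          exact enorm_sub_le
      _ = ∫⁻ y, ‖Θ y - B₀‖ₑ ∂μ + ‖Θ z - B₀‖ₑ * μ univ := by
          rw [lintegral_add_right _ measurable_const, lintegral_const]
      _ ≤ ENNReal.ofReal (κ * r ^ Module.finrank ℝ E) +
          ENNReal.ofReal (κ * r ^ Module.finrank ℝ E) := add_le_add hosc (h1.trans hosc)
      _ = ENNReal.ofReal (2 * (κ * r ^ Module.finrank ℝ E)) := by
          rw [← ENNReal.ofReal_add (by positivity) (by positivity)]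
          congr 1
          ring
  have h3 : ∀ y, defect 1 (Θ y) Q ≤ ‖Θ y - Θ z‖ₑ * ENNReal.ofReal (1 / c) := by
    intro y
    refine iSup₂_le fun u hu => ?_
    rw [← ofReal_norm_eq_enorm, ← ENNReal.ofReal_mul (norm_nonneg _)]
    refine ENNReal.ofReal_le_ofReal ?_
    have e1 : 1 - Θ y u (Q u) = -((Θ y - Θ z) u (Q u)) := by
      rw [ContinuousLinearMap.sub_apply, ContinuousLinearMap.sub_apply, hQu, hu]
      ring
    rw [e1]
    have e2 : ‖(Θ y - Θ z) u (Q u)‖ ≤ ‖Θ y - Θ z‖ * ‖u‖ * ‖Q u‖ :=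
      (Θ y - Θ z).le_opNorm₂ u (Q u)
    have e3 : ‖Q u‖ ≤ 1 / c := by
      have := Q.le_opNorm u
      rw [hu, mul_one] at this
      exact this.trans hQ
    calc -((Θ y - Θ z) u (Q u)) ≤ ‖(Θ y - Θ z) u (Q u)‖ := by
          rw [Real.norm_eq_abs]
          exact neg_le_abs _
      _ ≤ ‖Θ y - Θ z‖ * ‖u‖ * ‖Q u‖ := e2
      _ ≤ ‖Θ y - Θ z‖ * (1 / c) := by
          rw [hu, mul_one]
          exact mul_le_mul_of_nonneg_left e3 (norm_nonneg _)
  calc ∫⁻ y, defect 1 (Θ y) Q ∂μ ≤ ∫⁻ y, ‖Θ y - Θ z‖ₑ * ENNReal.ofReal (1 / c) ∂μ :=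
        lintegral_mono h3
    _ = (∫⁻ y, ‖Θ y - Θ z‖ₑ ∂μ) * ENNReal.ofReal (1 / c) :=
        lintegral_mul_const' _ _ ENNReal.ofReal_ne_top
    _ ≤ ENNReal.ofReal (2 * (κ * r ^ Module.finrank ℝ E)) * ENNReal.ofReal (1 / c) :=
        mul_le_mul' h2 le_rfl
    _ = ENNReal.ofReal (2 * κ / c * r ^ Module.finrank ℝ E) := by
        rw [← ENNReal.ofReal_mul (by positivity)]
        congr 1
        ring

end Pool.Agent.Y421.SY
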